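import Pool.Agent.Lib.helper21.NS
set_option linter.style.longLine false
namespace Pool.Agent.Results.MP_52157e_lc.No
open Set Cardinal Order Pool.Agent.Lib.helper21.NS

lemma st {X : Type} [LinearOrder X] (R : Reg X) {S C : Set X} (h : ¬ J S) (hC : IsClub C) : (S ∩ C).Nonempty := by
  by_contra hc
  have : ∀ x, ∃ y, x ∈ S → ((∃ y, y < x) → y < x) ∧ ∀ c ∈ C, y < c → x ≤ c := by
    intro x
    by_contra k
    push Not at k
    by_cases e : ∃ y, y < x
    · obtain ⟨y, hy⟩ := e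
      have w : ∀ y < x, ∃ c ∈ C, y < c ∧ c < x := fun y hy => (k y).2 fun _ => hy
      obtain ⟨c, c1, -, c2⟩ := w y hy
      refine hc ⟨x, (k x).1, hC.isLUB_mem (t := C ∩ Iio x) inter_subset_left ⟨c, c1, c2⟩
        ⟨fun z hz => hz.2.le, fun z hz => not_lt.1 fun l => ?_⟩⟩
      obtain ⟨d, d1, d2, d3⟩ := w z l
      exact (hz ⟨d1, d3⟩).not_gt d2
    · obtain ⟨c, -, -, c2⟩ := (k x).2 fun a => absurd a e
      exact e ⟨c, c2⟩
  choose f hf using this
  refine h ⟨f, fun x hx => (hf x hx).1, fun y => ?_⟩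
  obtain ⟨z, hz⟩ := R.exists_gt y
  obtain ⟨c, c1, c2⟩ := hC.isCofinal z
  exact ⟨c, fun x hx => (hf x hx.1).2 c c1 (hx.2 ▸ hz.trans_le c2)⟩

theorem result (κ : Cardinal.{0}) (hκ : κ.IsRegular) (hu : ℵ₀ < κ) :
    ∃ F : Filter κ.ord.ToType, F.NeBot ∧ CardinalInterFilter F κ ∧ (∀ C, IsClub C → C ∈ F) ∧
      ∃ A : (succ κ).ord.ToType → Set κ.ord.ToType, (∀ i, A i ∈ F) ∧
        ∀ I : Set (succ κ).ord.ToType, #I = κ → (⋂ i ∈ I, A i) ∉ F := by
  have R := reg_of_isRegular hκ hu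
  have mk : #κ.ord.ToType = κ := mk_ord_toType κ
  have cf : cof κ.ord.ToType = κ := by rw [Ordinal.cof_toType, hκ.cof_ord]
  set X := κ.ord.ToType
  set W := (succ κ).ord.ToType
  obtain ⟨g, hg⟩ := split R
  obtain ⟨π⟩ := (Cardinal.le_def (X × X) {y | ¬ J {x | g x = y}}).1 (by simpa [mk, mul_eq_self hu.le] using hg)
  have : ∀ i : W, Nonempty (Iio i ↪ X) := fun i => (Cardinal.le_def _ _).1 (by
    rw [mk, ← lt_succ_iff]; simpa [W] using mk_Iio_lt i (by simp [W]))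
  let e := fun i => (this i).some
  have : ∀ (i : W) (p : ∀ j, j < i → X → X), ∃ q : X → X, ∀ x j (h : j < i), e i ⟨j, h⟩ ≤ x → q x ≠ p j h x := by
    intro i p
    have : ∀ x, ∃ y, ∀ j (h : j < i), e i ⟨j, h⟩ ≤ x → y ≠ p j h x := fun x => by
      obtain ⟨b, hb⟩ := R.bdd ((fun j : Iio i => p j j.2 x) '' (e i ⁻¹' Iic x))
        (mk_image_le.trans_lt ((mk_preimage_of_injective _ _ (e i).injective).trans_lt (R.small x)))
      obtain ⟨y, hy⟩ := R.exists_gt b
      exact ⟨y, fun j h l => ((hb ⟨⟨j, h⟩, l, rfl⟩).trans_lt hy).ne'⟩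
    exact ⟨_, (Classical.skolem.1 this).choose_spec⟩
  choose Q hQ using this
  let f : W → X → X := WellFoundedLT.fix Q
  have hf : ∀ i j (h : j < i) x, e i ⟨j, h⟩ ≤ x → f i x ≠ f j x := fun i j h x l => by
    rw [show f i = Q i fun j _ => f j from WellFoundedLT.fix_eq Q i]; exact hQ i _ x j h l
  have ed : ∀ i j, ∃ b, i ≠ j → ∀ x, b ≤ x → f i x ≠ f j x := fun i j => by
    rcases lt_trichotomy i j with h | h | h
    · exact ⟨_, fun _ x l => (hf j i h x l).symm⟩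
    · exact ⟨R.nonempty.some, fun a => absurd h a⟩
    · exact ⟨_, fun _ x l => hf i j h x l⟩
  choose b hb using ed
  let A : W → Set X := fun i => {η | ∀ x, g η ≠ π (x, f i x)}
  let F := Filter.cardinalGenerate ({C | IsClub C} ∪ range A) (hκ.nat_lt 2)
  have hF : ∀ s ∈ {C | IsClub C} ∪ range A, s ∈ F := fun s h => Filter.CardinalGenerateSets.basic h
  have ng : ∀ I : Set W, #I = κ → (⋂ i ∈ I, A i) ∉ F := by
    intro I hI h
    obtain ⟨S, s1, s2, s3⟩ := (Filter.mem_cardinalGenerate_iff (hreg := hκ)).1 h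
    have : ∀ s : (S \ {C | IsClub C} : Set (Set X)), ∃ i, A i = s := fun s => (s1 s.2.1).resolve_left s.2.2
    choose a ha using this
    have sa : #(S \ {C | IsClub C} : Set (Set X)) < κ := (mk_le_mk_of_subset sdiff_subset).trans_lt s2
    obtain ⟨j, j1, j2⟩ : ∃ j ∈ I, j ∉ range a := by
      by_contra k
      push Not at k
      exact (mk_range_le.trans_lt sa).not_ge (hI ▸ mk_le_mk_of_subset k)
    obtain ⟨x, hx⟩ := R.bdd (range fun s => b (a s) j) (mk_range_le.trans_lt (sa.trans_eq mk.symm))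
    obtain ⟨η, h1, h2⟩ := st R (π (x, f j x)).2 (IsClub.sInter (s := S ∩ {C | IsClub C}) (by rw [cf]; exact hu.ne')
      (by rw [cf]; exact (mk_le_mk_of_subset inter_subset_left).trans_lt s2) fun _ h => h.2)
    refine mem_iInter₂.1 (s3 fun s hs => ?_) j j1 x h1
    by_cases c : IsClub s
    · exact h2 s ⟨hs, c⟩
    rw [show s = A (a ⟨s, hs, c⟩) from (ha ⟨s, hs, c⟩).symm]
    intro y hy
    have := π.injective (Subtype.ext (hy.symm.trans h1))
    obtain ⟨rfl, l⟩ := Prod.ext_iff.1 this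
    exact hb _ j (fun k => j2 ⟨_, k⟩) _ (hx ⟨_, rfl⟩) l
  refine ⟨F, ⟨fun h => ?_⟩, Filter.cardinalInter_ofCardinalGenerate _ _, fun C h => hF C (Or.inl h), A, fun i => hF _ (Or.inr ⟨i, rfl⟩), ng⟩
  obtain ⟨I, -, hI⟩ := le_mk_iff_exists_subset (c := κ) (s := (Set.univ : Set W)).1 (by simp [W, le_succ])
  exact ng I hI (h ▸ Filter.mem_bot)

end Pool.Agent.Results.MP_52157e_lc.No
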